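import Pool.Agent.Helper2.EG.Stmts

/-! Module TY (MP_861132_nt): almost all numbers are typical. -/

set_option autoImplicit false

namespace Pool.Agent.Helper2.EG

/-- the numbers without a three step move in the classes `κ`, `ρ` -/
def tyB (m κ ρ : ℕ) : Set ℕ := {n | ¬ ∃ q u : ℕ, 1 < q ∧ q ≤ n ∧
  0 < u ∧ u ≤ n ∧ q.Coprime u ∧ q ∣ n ^ 2 + u ∧ u ∣ (n * (n + q)) ^ 2 + q ∧
  q ≡ κ [MOD m] ∧ u ≡ ρ [MOD m]}

theorem ty_primes (m ρ : ℕ) (hm : 0 < m) (h6 : m.Coprime 6) (hρ : ρ.Coprime m) :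
    ∃ u : ℕ → ℕ, Function.Injective u ∧ ∀ k, (u k).Prime ∧ 7 ≤ u k ∧ u k % 4 = 1 ∧
      u k % 3 = 2 ∧ (u k).Coprime m ∧ u k ≡ ρ [MOD m] := by
  have h12 : m.Coprime 12 := by
    have h2 : m.Coprime 2 := Nat.Coprime.coprime_dvd_right (by norm_num) h6
    have : (12 : ℕ) = 6 * 2 := by norm_num
    rw [this]
    exact Nat.Coprime.mul_right h6 h2
  obtain ⟨r, hr1, hr2⟩ := Nat.chineseRemainder h12 ρ 5
  have hrm : r.Coprime m := by
    have := hr1.gcd_eq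
    unfold Nat.Coprime
    rw [this]
    exact hρ
  have hr12 : r.Coprime 12 := by
    have := hr2.gcd_eq
    unfold Nat.Coprime
    rw [this]
    norm_num
  have hrc : r.Coprime (m * 12) := Nat.Coprime.mul_right hrm hr12
  have hne : m * 12 ≠ 0 := by positivity
  have hinf := Nat.infinite_setOfPred_prime_and_modEq hne hrc
  have hinf2 : ({p : ℕ | p.Prime ∧ p ≡ r [MOD m * 12]} \ Set.Iio 7).Infinite :=
    hinf.sdiff (Set.finite_Iio 7)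
  refine ⟨fun k => ((Set.Infinite.natEmbedding _ hinf2 k : _) : ℕ), ?_, ?_⟩
  · intro a b hab
    exact (Set.Infinite.natEmbedding _ hinf2).injective (Subtype.ext hab)
  · intro k
    obtain ⟨⟨hp, hmod⟩, h7⟩ := (Set.Infinite.natEmbedding _ hinf2 k).2
    simp only [Set.mem_Iio, not_lt] at h7
    have e1 : ((Set.Infinite.natEmbedding _ hinf2 k : _) : ℕ) ≡ ρ [MOD m] :=
      (Nat.ModEq.of_mul_right 12 hmod).trans hr1
    have e2 : ((Set.Infinite.natEmbedding _ hinf2 k : _) : ℕ) ≡ 5 [MOD 12] :=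
      (Nat.ModEq.of_mul_left m hmod).trans hr2
    refine ⟨hp, h7, ?_, ?_, ?_, e1⟩
    · have h4 : ((Set.Infinite.natEmbedding _ hinf2 k : _) : ℕ) ≡ 5 [MOD 4] := e2.of_dvd (by norm_num)
      exact h4
    · have h3 : ((Set.Infinite.natEmbedding _ hinf2 k : _) : ℕ) ≡ 5 [MOD 3] := e2.of_dvd (by norm_num)
      exact h3
    · have := e1.gcd_eq
      unfold Nat.Coprime
      rw [this]
      exact hρ

theorem ty_class (hDU : ST_DU) (hCNT : ST_CNT) (hDEN : ST_DEN) (hBAD : ST_BAD)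
    (hONE : ∀ m κ u : ℕ, 0 < m → m.Coprime 2 → κ.Coprime m → u.Prime → u % 4 = 1 → u.Coprime m →
      DZ {n | ¬ u ∣ n ∧ (∃ s : ℕ, s ^ 2 ≡ 4 * n ^ 3 + 1 [MOD u]) ∧ ¬ OKu m κ u n})
    (m κ ρ : ℕ) (hm : 0 < m) (h6 : m.Coprime 6) (hκ : κ.Coprime m) (hρ : ρ.Coprime m) :
    DZ (tyB m κ ρ) := by
  have h2 : m.Coprime 2 := Nat.Coprime.coprime_dvd_right (by norm_num) h6
  obtain ⟨u, huinj, hu⟩ := ty_primes m ρ hm h6 hρ
  apply hDEN hCNT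
  intro δ hδ
  obtain ⟨K, hK⟩ := exists_pow_lt_of_lt_one hδ (show (3 / 4 : ℝ) < 1 by norm_num)
  have hA : ∀ k, ∃ A : Finset ℕ, A ⊆ Finset.range (u k) ∧ 4 * A.card ≤ 3 * u k ∧
      ∀ n : ℕ, (u k ∣ n ∨ ¬ ∃ s : ℕ, s ^ 2 ≡ 4 * n ^ 3 + 1 [MOD u k]) → n % u k ∈ A :=
    fun k => hBAD (u k) (hu k).1 (hu k).2.2.2.1 (hu k).2.1
  choose A hA1 hA2 hA3 using hA
  refine ⟨K, u, A, fun k _ => (hu k).1.pos, fun i _ j _ hij =>
    (Nat.coprime_primes (hu i).1 (hu j).1).mpr (fun h => hij (huinj h)), fun k _ => hA1 k, ?_, ?_⟩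
  · refine le_trans ?_ hK.le
    calc (∏ k ∈ Finset.range K, ((A k).card : ℝ) / (u k : ℝ))
        ≤ ∏ _k ∈ Finset.range K, (3 / 4 : ℝ) := by
          apply Finset.prod_le_prod
          · intro k _
            positivity
          · intro k _
            have hp : (0 : ℝ) < u k := by exact_mod_cast (hu k).1.pos
            rw [div_le_iff₀ hp]
            have : (4 : ℝ) * ((A k).card : ℝ) ≤ 3 * (u k : ℝ) := by exact_mod_cast hA2 k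
            linarith
      _ = (3 / 4 : ℝ) ^ K := by rw [Finset.prod_const, Finset.card_range]
  · refine ⟨{n | ∃ k < K, n ∈ ({n | ¬ u k ∣ n ∧ (∃ s : ℕ, s ^ 2 ≡ 4 * n ^ 3 + 1 [MOD u k]) ∧
      ¬ OKu m κ (u k) n} ∪ Set.Iio (u k) : Set ℕ)}, ?_, ?_⟩
    · apply hDU.2.2.2 K (fun k => ({n | ¬ u k ∣ n ∧
        (∃ s : ℕ, s ^ 2 ≡ 4 * n ^ 3 + 1 [MOD u k]) ∧ ¬ OKu m κ (u k) n} ∪ Set.Iio (u k) : Set ℕ))
      intro k _
      exact hDU.2.1 _ _ (hONE m κ (u k) hm h2 hκ (hu k).1 (hu k).2.2.1 (hu k).2.2.2.2.1)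
        (hDU.2.2.1 _ (Set.finite_Iio _))
    · intro n hn
      by_cases hC : n ∈ {n | ∃ k < K, n ∈ ({n | ¬ u k ∣ n ∧
        (∃ s : ℕ, s ^ 2 ≡ 4 * n ^ 3 + 1 [MOD u k]) ∧ ¬ OKu m κ (u k) n} ∪ Set.Iio (u k) : Set ℕ)}
      · exact Or.inl hC
      · right
        intro k hk
        by_contra hnot
        apply hC
        refine ⟨k, hk, ?_⟩
        left
        have h3 : ¬ (u k ∣ n ∨ ¬ ∃ s : ℕ, s ^ 2 ≡ 4 * n ^ 3 + 1 [MOD u k]) :=
          fun h => hnot (hA3 k n h)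
        have h4 : ¬ u k ∣ n := fun h => h3 (Or.inl h)
        have h5 : ∃ s : ℕ, s ^ 2 ≡ 4 * n ^ 3 + 1 [MOD u k] := by
          by_contra h
          exact h3 (Or.inr h)
        refine ⟨h4, h5, ?_⟩
        rintro ⟨q, q1, q2, q3, q4, q5, q6, q7⟩
        exact hn ⟨q, u k, q1, q2, (hu k).1.pos, q3, q4, q5, q6, q7, (hu k).2.2.2.2.2⟩

theorem st_TY : ST_TY := by
  intro hDU hCNT hDEN hBAD hONE hQD hDIR hREC hC0 m hm h6
  have hONE' := hONE hDU hQD hCNT hDEN hDIR hREC hC0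
  have hcl := fun κ ρ => ty_class hDU hCNT hDEN hBAD hONE' m κ ρ hm h6
  have hempty : DZ (∅ : Set ℕ) := hDU.2.2.1 _ Set.finite_empty
  have h1 : ∀ κ < m, DZ {n | ∃ ρ < m, n ∈ (if κ.Coprime m ∧ ρ.Coprime m then tyB m κ ρ else ∅ : Set ℕ)} := by
    intro κ _
    apply hDU.2.2.2 m (fun ρ => (if κ.Coprime m ∧ ρ.Coprime m then tyB m κ ρ else ∅ : Set ℕ))
    intro ρ _
    show DZ (if κ.Coprime m ∧ ρ.Coprime m then tyB m κ ρ else ∅ : Set ℕ)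
    split_ifs with h
    · exact hcl κ ρ h.1 h.2
    · exact hempty
  have h2 := hDU.2.2.2 m (fun κ => {n | ∃ ρ < m, n ∈ (if κ.Coprime m ∧ ρ.Coprime m then tyB m κ ρ
    else ∅ : Set ℕ)}) h1
  refine hDU.1 _ _ ?_ h2
  intro n hn
  simp only [Set.mem_ofPred_eq, Typ, not_forall] at hn
  obtain ⟨κ, ρ, hκ, hρ, hnot⟩ := hn
  have hκ' : (κ % m).Coprime m := by
    unfold Nat.Coprime
    rw [(Nat.mod_modEq κ m).gcd_eq]
    exact hκ
  have hρ' : (ρ % m).Coprime m := by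
    unfold Nat.Coprime
    rw [(Nat.mod_modEq ρ m).gcd_eq]
    exact hρ
  refine ⟨κ % m, Nat.mod_lt _ hm, ρ % m, Nat.mod_lt _ hm, ?_⟩
  rw [if_pos ⟨hκ', hρ'⟩]
  rintro ⟨q, u, q1, q2, q3, q4, q5, q6, q7, q8, q9⟩
  exact hnot ⟨q, u, q1, q2, q3, q4, q5, q6, q7, q8.trans (Nat.mod_modEq κ m),
    q9.trans (Nat.mod_modEq ρ m)⟩

end Pool.Agent.Helper2.EG
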